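import Pool.Agent.Q65.RVJoin

/-!
# Open rectangle-of-influence graphs which are corner rectangle visibility graphs but not
rectangle visibility graphs

The join of two paths is an open RIG and a CRVG; if the paths have `m` and `n` vertices with
`6 (m + n) < m n`, it is not an RVG.
-/

set_option autoImplicit false

namespace Pool.Agent.Results.MP_78e958_co.PathJoin

open Q65.RV

/-- Every join of a path with `m` vertices and a path with `n` vertices is an open RIG and a CRVG,
and it is not an RVG if `6 (m + n) < m n`; in particular there is a finite graph, the join of two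
paths with `13` vertices, which is an open RIG and a CRVG but not an RVG. -/
theorem result :
    (∀ m n : ℕ, IsOpenRIG (pathJoin m n) ∧ IsCRVG (pathJoin m n) ∧
      (6 * (m + n) < m * n → ¬ IsRVG (pathJoin m n))) ∧
    (IsOpenRIG (pathJoin 13 13) ∧ IsCRVG (pathJoin 13 13) ∧ ¬ IsRVG (pathJoin 13 13)) := by
  have main : ∀ m n : ℕ, 6 * (m + n) < m * n → ¬ IsRVG (pathJoin m n) := by
    intro m n h hG
    have := rvg_bound hG (fun i : Fin m => (Sum.inl i : Fin m ⊕ Fin n))
      (fun j : Fin n => (Sum.inr j : Fin m ⊕ Fin n)) Sum.inl_injective Sum.inr_injective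
      (fun _ _ => Sum.inl_ne_inr) (fun _ _ => trivial)
    simp only [Fintype.card_sum, Fintype.card_fin] at this
    omega
  exact ⟨fun m n => ⟨join_rig m n, join_crvg m n, main m n⟩,
    join_rig 13 13, join_crvg 13 13, main 13 13 (by norm_num)⟩

end Pool.Agent.Results.MP_78e958_co.PathJoin
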